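import Pool.Agent.Helper49.RH.Prenex
import Pool.Agent.RelPoly.OUse
import Mathlib.SetTheory.Cardinal.Continuum
import Mathlib.Analysis.Real.Cardinality

/-!
# An oracle with `∃ℝ = ∀ℝ` and a real hierarchy that does not collapse
-/

namespace Pool.Agent.RH

open Function Pool.Agent.RelPoly Cardinal

/-- states coded by real numbers: a formula, an assignment, a set of formulas, a finite list of
queries -/
structure St : Type where
  /-- formula -/
  ψ : Qf
  /-- assignment -/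
  a : ℕ → ℕ → ℝ
  /-- set of formulas -/
  T : Set Qf
  /-- positively answered queries -/
  β : List (List ℝ)

theorem exists_dec : ∃ D : ℝ → St, Surjective D := by
  have h : #(Qf × (ℕ → ℕ → ℝ) × Set Qf × List (List ℝ)) ≤ #ℝ := by
    have e1 : #Qf ≤ 𝔠 := (mk_le_aleph0).trans aleph0_le_continuum
    have e2 : #(ℕ → ℕ → ℝ) ≤ 𝔠 := by
      simp [mk_real]
    have e3 : #(Set Qf) ≤ 𝔠 := by
      rw [mk_set, ← two_power_aleph0]
      exact power_le_power_left (by norm_num) mk_le_aleph0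
    have e4 : #(List (List ℝ)) ≤ 𝔠 := by
      rw [mk_list_eq_mk, mk_list_eq_mk, mk_real]
    rw [mk_real, mk_prod, mk_prod, mk_prod]
    simp only [lift_id]
    calc _ ≤ 𝔠 * (𝔠 * (𝔠 * 𝔠)) := by gcongr
      _ = 𝔠 := by simp
  obtain ⟨f⟩ := Cardinal.le_def _ _ |>.1 h
  have : Nonempty (Qf × (ℕ → ℕ → ℝ) × Set Qf × List (List ℝ)) :=
    ⟨(Qf.eq Tm.zero Tm.zero, fun _ _ => 0, ∅, [])⟩
  refine ⟨fun x => ⟨(invFun f x).1, (invFun f x).2.1, (invFun f x).2.2.1, (invFun f x).2.2.2⟩, ?_⟩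
  rintro ⟨ψ, a, T, β⟩
  obtain ⟨x, hx⟩ := invFun_surjective f.injective (ψ, a, T, β)
  exact ⟨x, by beta_reduce; rw [hx]⟩

theorem exists_pair : ∃ D : ℝ → ℝ × ℝ, Surjective D := by
  have h : #(ℝ × ℝ) ≤ #ℝ := by
    rw [mk_prod]
    simp [mk_real]
  obtain ⟨f⟩ := Cardinal.le_def _ _ |>.1 h
  exact ⟨invFun f, invFun_surjective f.injective⟩

/-- the state coded by a real number -/
noncomputable def D : ℝ → St := exists_dec.choose

theorem D_surj (s : St) : ∃ x, D x = s := exists_dec.choose_spec s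

/-- the pair coded by a real number -/
noncomputable def Pr : ℝ → ℝ × ℝ := exists_pair.choose

theorem Pr_surj (s : ℝ × ℝ) : ∃ x, Pr x = s := exists_pair.choose_spec s

theorem exists_enum : ∃ e : List Bool → (List Bool → List Bool),
    ∀ f, Pool.Agent.PolyTime.PolyTime f → ∃ n, e n = f := by
  have : Countable {f : List Bool → List Bool // PT poly f} := countable_poly
  have : Nonempty {f : List Bool → List Bool // PT poly f} := ⟨⟨_, PT.id⟩⟩
  obtain ⟨g, hg⟩ := exists_surjective_nat {f : List Bool → List Bool // PT poly f}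
  refine ⟨fun n => (g n.length).1, fun f hf => ?_⟩
  obtain ⟨m, hm⟩ := hg ⟨f, PT_poly_iff.2 hf⟩
  refine ⟨List.replicate m true, ?_⟩
  simp only [List.length_replicate, hm]

/-- an enumeration of the functions that are computable in polynomial time -/
noncomputable def en : List Bool → (List Bool → List Bool) := exists_enum.choose

theorem en_spec {f : List Bool → List Bool} (hf : Pool.Agent.PolyTime.PolyTime f) :
    ∃ n, en n = f := exists_enum.choose_spec f hf

open Classical in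
/-- the formula output by the function with index `n` on the input `n` -/
noncomputable def F (n : List Bool) : Qf :=
  if h : ∃ ψ : Qf, en n n = ψ.code then h.choose else Qf.eq Tm.zero Tm.zero

theorem F_spec {n : List Bool} {ψ : Qf} (h : en n n = ψ.code) : F n = ψ := by
  have h' : ∃ ψ : Qf, en n n = ψ.code := ⟨ψ, h⟩
  unfold F
  rw [dif_pos h']
  exact Qf.code_injective (h'.choose_spec.symm.trans h)

/-- `p` codes the start of an evaluation of the formula `F n` -/
def Start (n : List Bool) (p : ℝ) : Prop := (D p).ψ = F n ∧ (D p).a = fun _ _ => 0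

/-- the oracle built from a set of formulas and a relation -/
def mkO (T : Set Qf) (C : ℝ → ℝ → ℝ → ℝ → Prop) : Set (List ℝ) :=
  {l | (∃ ψ ∈ T, l = 0 :: bits ψ.code) ∨ (∃ k x y z, l = [1, k, x, y, z] ∧ C k x y z) ∨
    (∃ p n, l = 2 :: p :: bits n ∧ Start n p)}

theorem mkO_zero {T : Set Qf} {C : ℝ → ℝ → ℝ → ℝ → Prop} {ψ : Qf} :
    (0 :: bits ψ.code) ∈ mkO T C ↔ ψ ∈ T := by
  constructor
  · rintro (⟨χ, hχ, h⟩ | ⟨k, x, y, z, h, -⟩ | ⟨p, n, h, -⟩)
    · rw [List.cons.injEq] at h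
      rw [Qf.code_injective (bits_injective h.2)]
      exact hχ
    · simp at h
    · simp at h
  · intro h
    exact Or.inl ⟨ψ, h, rfl⟩

theorem mkO_one {T : Set Qf} {C : ℝ → ℝ → ℝ → ℝ → Prop} {k x y z : ℝ} :
    [1, k, x, y, z] ∈ mkO T C ↔ C k x y z := by
  constructor
  · rintro (⟨χ, hχ, h⟩ | ⟨k', x', y', z', h, h'⟩ | ⟨p, n, h, -⟩)
    · simp at h
    · simp only [List.cons.injEq, and_true, true_and] at h
      obtain ⟨rfl, rfl, rfl, rfl⟩ := h
      exact h'
    · simp at h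
  · intro h
    exact Or.inr (Or.inl ⟨k, x, y, z, rfl, h⟩)

theorem mkO_two {T : Set Qf} {C : ℝ → ℝ → ℝ → ℝ → Prop} {p : ℝ} {n : List Bool} :
    (2 :: p :: bits n) ∈ mkO T C ↔ Start n p := by
  constructor
  · rintro (⟨χ, hχ, h⟩ | ⟨k', x', y', z', h, h'⟩ | ⟨p', n', h, h'⟩)
    · simp at h
    · simp at h
    · simp only [List.cons.injEq, true_and] at h
      obtain ⟨rfl, h2⟩ := h
      rw [bits_injective h2]
      exact h'
  · intro h
    exact Or.inr (Or.inr ⟨p, n, rfl, h⟩)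

/-- two such oracles agree on a list -/
theorem mkO_congr {T T' : Set Qf} {C C' : ℝ → ℝ → ℝ → ℝ → Prop} {l : List ℝ}
    (h1 : ∀ ψ : Qf, l = 0 :: bits ψ.code → (ψ ∈ T ↔ ψ ∈ T'))
    (h2 : ∀ k x y z, l = [1, k, x, y, z] → (C k x y z ↔ C' k x y z)) :
    l ∈ mkO T C ↔ l ∈ mkO T' C' := by
  constructor
  · rintro (⟨χ, hχ, h⟩ | ⟨k, x, y, z, h, h'⟩ | h)
    · exact Or.inl ⟨χ, (h1 χ h).1 hχ, h⟩
    · exact Or.inr (Or.inl ⟨k, x, y, z, h, (h2 k x y z h).1 h'⟩)
    · exact Or.inr (Or.inr h)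
  · rintro (⟨χ, hχ, h⟩ | ⟨k, x, y, z, h, h'⟩ | h)
    · exact Or.inl ⟨χ, (h1 χ h).2 hχ, h⟩
    · exact Or.inr (Or.inl ⟨k, x, y, z, h, (h2 k x y z h).2 h'⟩)
    · exact Or.inr (Or.inr h)

/-- the lists that are queried -/
def Qf.qs (a : ℕ → ℕ → ℝ) : Qf → List (List ℝ)
  | .eq _ _ => []
  | .lt _ _ => []
  | .le _ _ => []
  | .orc l => [l.map (Tm.val a)]
  | .neg φ => φ.qs a
  | .and φ ψ => φ.qs a ++ ψ.qs a
  | .or φ ψ => φ.qs a ++ ψ.qs a

theorem Qf.holds_congr {O O' : Set (List ℝ)} {a : ℕ → ℕ → ℝ} {ψ : Qf}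
    (h : ∀ l ∈ ψ.qs a, (l ∈ O ↔ l ∈ O')) : ψ.holds O a ↔ ψ.holds O' a := by
  induction ψ with
  | eq s t => rfl
  | lt s t => rfl
  | le s t => rfl
  | orc l =>
    simp only [Qf.holds]
    exact h _ (by simp [Qf.qs])
  | neg φ ih =>
    simp only [Qf.holds]
    rw [ih h]
  | and φ ψ ih1 ih2 =>
    simp only [Qf.holds]
    rw [ih1 (fun l hl => h l (by simp [Qf.qs, hl])), ih2 (fun l hl => h l (by simp [Qf.qs, hl]))]
  | or φ ψ ih1 ih2 =>
    simp only [Qf.holds]
    rw [ih1 (fun l hl => h l (by simp [Qf.qs, hl])), ih2 (fun l hl => h l (by simp [Qf.qs, hl]))]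

theorem Qf.qs_length {a : ℕ → ℕ → ℝ} {ψ : Qf} {l : List ℝ} (h : l ∈ ψ.qs a) :
    l.length < ψ.code.length := by
  induction ψ with
  | eq s t => simp [Qf.qs] at h
  | lt s t => simp [Qf.qs] at h
  | le s t => simp [Qf.qs] at h
  | orc l' =>
    simp only [Qf.qs, List.mem_singleton] at h
    subst h
    have : l'.length ≤ (l'.flatMap (fun t => true :: t.code)).length := by
      induction l' with
      | nil => simp
      | cons t l' ih =>
        simp only [List.length_cons, List.flatMap_cons, List.length_append]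
        omega
    simp only [Qf.code, List.length_append, List.length_map, List.length_cons, List.length_nil]
    omega
  | neg φ ih =>
    have := ih h
    simp only [Qf.code, List.length_append]
    omega
  | and φ ψ ih1 ih2 =>
    simp only [Qf.code, List.length_append]
    simp only [Qf.qs, List.mem_append] at h
    rcases h with h | h
    · have := ih1 h; omega
    · have := ih2 h; omega
  | or φ ψ ih1 ih2 =>
    simp only [Qf.code, List.length_append]
    simp only [Qf.qs, List.mem_append] at h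
    rcases h with h | h
    · have := ih1 h; omega
    · have := ih2 h; omega

/-- the query coded by `u` -/
noncomputable def qu (u : ℝ) : List ℝ :=
  [1, (Pr u).1, (Pr (Pr u).2).1, (Pr (Pr (Pr u).2).2).1, (Pr (Pr (Pr u).2).2).2]

/-- the relation in the oracle -/
def B (k x y z : ℝ) : Prop :=
  (k = 0 ∧ (D x).ψ.holds (mkO (D x).T (fun k' x' y' z' => [1, k', x', y', z'] ∈ (D x).β)) (D x).a) ∨
  (k = 1 ∧ (D y).ψ = (D x).ψ ∧ (D y).a = (D x).a ∧ (D y).T = (D x).T) ∨
  (k = 2 ∧ Pr x = (y, z)) ∨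
  (k = 3 ∧ qu y ∈ (D x).ψ.qs (D x).a ∧ qu y ∈ (D x).β) ∨
  (k = 4 ∧ qu y ∈ (D x).ψ.qs (D x).a ∧ qu y ∉ (D x).β) ∨
  (k = 5 ∧ (D y).ψ = (D x).ψ ∧ (D y).T = (D x).T ∧
    ∃ i : ℕ, z = i ∧ ∃ v, (D y).a = update (D x).a i v) ∨
  (k = 6 ∧ (D y).T = (D x).T) ∨
  (k = 7 ∧ (D x).ψ ∈ (D x).T) ∨
  (k = 8 ∧ (D x).a = fun _ _ => 0)

theorem B0 {x y z : ℝ} : B 0 x y z ↔
    (D x).ψ.holds (mkO (D x).T (fun k' x' y' z' => [1, k', x', y', z'] ∈ (D x).β)) (D x).a := by
  unfold B; norm_num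

theorem B1 {x y z : ℝ} : B 1 x y z ↔
    (D y).ψ = (D x).ψ ∧ (D y).a = (D x).a ∧ (D y).T = (D x).T := by
  unfold B; norm_num

theorem B2 {x y z : ℝ} : B 2 x y z ↔ Pr x = (y, z) := by
  unfold B; norm_num

theorem B3 {x y z : ℝ} : B 3 x y z ↔ qu y ∈ (D x).ψ.qs (D x).a ∧ qu y ∈ (D x).β := by
  unfold B; norm_num

theorem B4 {x y z : ℝ} : B 4 x y z ↔ qu y ∈ (D x).ψ.qs (D x).a ∧ qu y ∉ (D x).β := by
  unfold B; norm_num

theorem B5 {x y : ℝ} {i : ℕ} : B 5 x y i ↔
    (D y).ψ = (D x).ψ ∧ (D y).T = (D x).T ∧ ∃ v, (D y).a = update (D x).a i v := by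
  unfold B; norm_num

theorem B6 {x y z : ℝ} : B 6 x y z ↔ (D y).T = (D x).T := by
  unfold B; norm_num

theorem B7 {x y z : ℝ} : B 7 x y z ↔ (D x).ψ ∈ (D x).T := by
  unfold B; norm_num

theorem B8 {x y z : ℝ} : B 8 x y z ↔ (D x).a = fun _ _ => 0 := by
  unfold B; norm_num

/-- the oracle for a set of formulas -/
def orcl (T : Set Qf) : Set (List ℝ) := mkO T B

/-! ### the fixed point -/

theorem exists_fix {α : Type} (m : α → ℕ) (Φ : Set α → Set α)
    (h : ∀ T T' x, (∀ y, m y < m x → (y ∈ T ↔ y ∈ T')) → (x ∈ Φ T ↔ x ∈ Φ T')) :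
    ∃ T, ∀ x, x ∈ T ↔ x ∈ Φ T := by
  let P : α → Prop := (measure m).wf.fix (fun x rec => x ∈ Φ {y | ∃ hy : m y < m x, rec y hy})
  have hP : ∀ x, P x ↔ x ∈ Φ {y | ∃ _ : m y < m x, P y} := by
    intro x
    simp only [P]
    rw [WellFounded.fix_eq]
  refine ⟨{x | P x}, fun x => ?_⟩
  have h1 : x ∈ {x | P x} ↔ P x := Iff.rfl
  rw [h1, hP]
  apply h
  intro y hy
  constructor
  · rintro ⟨-, h⟩; exact h
  · intro h; exact ⟨hy, h⟩

theorem fix_unique {α : Type} (m : α → ℕ) (Φ : Set α → Set α)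
    (h : ∀ T T' x, (∀ y, m y < m x → (y ∈ T ↔ y ∈ T')) → (x ∈ Φ T ↔ x ∈ Φ T'))
    {T T' : Set α} (hT : ∀ x, x ∈ T ↔ x ∈ Φ T) (hT' : ∀ x, x ∈ T' ↔ x ∈ Φ T') : T = T' := by
  have key : ∀ n x, m x < n → (x ∈ T ↔ x ∈ T') := by
    intro n
    induction n with
    | zero => intro x hx; omega
    | succ n ih =>
      intro x hx
      rw [hT, hT']
      exact h T T' x (fun y hy => ih y (by omega))
  ext x
  exact key (m x + 1) x (by omega)

/-- the true `Π₁`-sentences relative to the oracle for `T` -/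
def Phi (T : Set Qf) : Set Qf := {ψ | PiTrue (orcl T) 1 ψ}

theorem Phi_local (T T' : Set Qf) (ψ : Qf)
    (h : ∀ χ : Qf, χ.code.length < ψ.code.length → (χ ∈ T ↔ χ ∈ T')) :
    ψ ∈ Phi T ↔ ψ ∈ Phi T' := by
  simp only [Phi, Set.mem_ofPred_eq, PiTrue, truth]
  refine forall_congr' (fun v => Qf.holds_congr (fun l hl => ?_))
  have hlen := Qf.qs_length hl
  refine mkO_congr (fun χ hχ => h χ ?_) (fun _ _ _ _ _ => Iff.rfl)
  rw [hχ] at hlen
  simp only [List.length_cons, bits, List.length_map] at hlen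
  omega

theorem exists_T : ∃ T : Set Qf, ∀ ψ, ψ ∈ T ↔ PiTrue (orcl T) 1 ψ :=
  exists_fix (fun ψ : Qf => ψ.code.length) Phi Phi_local

/-- the set of the true `Π₁`-sentences relative to the oracle `orcl TT` -/
noncomputable def TT : Set Qf := exists_T.choose

theorem TT_spec (ψ : Qf) : ψ ∈ TT ↔ PiTrue (orcl TT) 1 ψ := exists_T.choose_spec ψ

theorem TT_unique {T : Set Qf} (h : ∀ ψ, ψ ∈ T ↔ PiTrue (orcl T) 1 ψ) : T = TT :=
  fix_unique (fun ψ : Qf => ψ.code.length) Phi Phi_local h TT_spec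

/-! ### the two lowest classes are equal -/

theorem pi_iff_sigma (L : Set (List Bool)) : InPi (orcl TT) 1 L ↔ InSigma (orcl TT) 1 L := by
  constructor
  · rintro ⟨f, hf, h⟩
    refine ⟨fun x => (Qf.orc (Tm.zero :: bitsTm (f x))).code, ?_, fun x => ?_⟩
    · have h1 : PT poly (fun x : List Bool => ([false, true] ++ (true :: Tm.zero.code)) ++
          ((bitsTm (f x)).flatMap (fun t => true :: t.code) ++ [false])) :=
        PT.append (PT.const _) (PT.append (PT.comp (f := f) pt_bitsCode (PT_poly_iff.2 hf)) (PT.const _))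
      refine PT_poly_iff.1 (h1.congr (fun x => ?_))
      simp [Qf.code]
    · obtain ⟨ψ, -, h1, h2⟩ := h x
      refine ⟨_, ?_, rfl, ?_⟩
      · simp only [Qf.Closed, List.mem_cons]
        rintro t (rfl | ht)
        · trivial
        · exact bitsTm_closed _ _ t ht
      rw [h2, ← TT_spec, h1]
      simp only [SigmaTrue, truth, Qf.holds, List.map_cons, bitsTm_val, Tm.val]
      rw [exists_const]
      exact mkO_zero.symm
  · rintro ⟨f, hf, h⟩
    refine ⟨fun x => (Qf.neg (Qf.orc (Tm.zero :: bitsTm ([true, false] ++ f x)))).code, ?_,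
      fun x => ?_⟩
    · have h0 : PT poly (fun x : List Bool => [true, false] ++ f x) :=
        PT.append (PT.const _) (PT_poly_iff.2 hf)
      have h1 : PT poly (fun x : List Bool => ([true, false] ++ ([false, true] ++
          (true :: Tm.zero.code))) ++
          ((bitsTm ([true, false] ++ f x)).flatMap (fun t => true :: t.code) ++ [false])) :=
        PT.append (PT.const _) (PT.append (PT.comp (f := fun x => [true, false] ++ f x)
          pt_bitsCode h0) (PT.const _))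
      refine PT_poly_iff.1 (h1.congr (fun x => ?_))
      simp [Qf.code]
    · obtain ⟨ψ, -, h1, h2⟩ := h x
      refine ⟨_, ?_, rfl, ?_⟩
      · simp only [Qf.Closed, List.mem_cons]
        rintro t (rfl | ht)
        · trivial
        · exact bitsTm_closed _ _ t ht
      have e : [true, false] ++ f x = (Qf.neg ψ).code := by rw [h1]; rfl
      rw [h2, e]
      have h3 : PiTrue (orcl TT) 1 (Qf.neg (Qf.orc (Tm.zero :: bitsTm (Qf.neg ψ).code))) ↔
          ¬ (0 :: bits (Qf.neg ψ).code) ∈ orcl TT := by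
        simp only [PiTrue, truth, Qf.holds, List.map_cons, bitsTm_val, Tm.val]
        rw [forall_const]
      rw [h3]
      have h4 : (0 :: bits (Qf.neg ψ).code) ∈ orcl TT ↔ Qf.neg ψ ∈ TT := mkO_zero
      rw [h4, TT_spec]
      simp only [SigmaTrue, PiTrue, truth, Qf.holds, not_forall, not_not]

/-! ### definability -/

/-- the atoms -/
def Bq (O : Set (List ℝ)) (k x y z : ℝ) : Prop := [1, k, x, y, z] ∈ O

theorem Dfn.B {O : Set (List ℝ)} (k x y z : Vt) :
    Dfn O (fun _ v => Bq O (k.val v) (x.val v) (y.val v) (z.val v)) := by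
  refine (Dfn.at [.num 1, k, x, y, z]).congr (fun n v => ?_)
  simp [Bq, Vt.val]

theorem Dfn.reindex {O : Set (List ℝ)} {R : Rl} (h : Dfn O R) (ρ : ℕ → ℕ) :
    Dfn O (fun n v => R n (fun m => v (ρ m))) := by
  obtain ⟨b, j, h⟩ := h
  exact ⟨b, j, h.reindex ρ⟩

/-- the formula of the state `p` is true, expressed over `O` -/
def SatO (O : Set (List ℝ)) (p : ℝ) : Prop :=
  ∃ p', Bq O 1 p p' 0 ∧ Bq O 0 p' 0 0 ∧ ∀ u v k w x y z,
    Bq O 2 u k v → Bq O 2 v x w → Bq O 2 w y z →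
      (Bq O 3 p' u 0 → Bq O k x y z) ∧ (Bq O 4 p' u 0 → ¬ Bq O k x y z)

theorem dfn_sat (O : Set (List ℝ)) : Dfn O (fun _ v => SatO O (v 0)) := by
  have h := ((((((((Dfn.B (O := O) (.num 2) (.var 2) (.var 4) (.var 3)).imp
    ((Dfn.B (.num 2) (.var 3) (.var 6) (.var 5)).imp
      ((Dfn.B (.num 2) (.var 5) (.var 7) (.var 8)).imp
        (((Dfn.B (.num 3) (.var 1) (.var 2) (.num 0)).imp
          (Dfn.B (.var 4) (.var 6) (.var 7) (.var 8))).and
          ((Dfn.B (.num 4) (.var 1) (.var 2) (.num 0)).imp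
            (Dfn.B (.var 4) (.var 6) (.var 7) (.var 8)).not))))).all 8).all 7).all 6).all 5).all
              4).all 3).all 2
  have h' := ((Dfn.B (O := O) (.num 1) (.var 0) (.var 1) (.num 0)).and
    ((Dfn.B (O := O) (.num 0) (.var 1) (.num 0) (.num 0)).and h)).ex 1
  refine h'.congr (fun n v => ?_)
  simp [SatO, Vt.val]

/-- the set of formulas of the state `p` is correct -/
def CorO (O : Set (List ℝ)) (p : ℝ) : Prop :=
  ∀ p', Bq O 6 p p' 0 → Bq O 8 p' 0 0 →
    (Bq O 7 p' 0 0 ↔ ∀ p'', Bq O 5 p' p'' 0 → SatO O p'')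

theorem dfn_cor (O : Set (List ℝ)) : Dfn O (fun _ v => CorO O (v 0)) := by
  have h := ((Dfn.B (O := O) (.num 6) (.var 0) (.var 1) (.num 0)).imp
    ((Dfn.B (O := O) (.num 8) (.var 1) (.num 0) (.num 0)).imp
      ((Dfn.B (O := O) (.num 7) (.var 1) (.num 0) (.num 0)).iff
        (((Dfn.B (O := O) (.num 5) (.var 1) (.var 2) (.num 0)).imp
          ((dfn_sat O).reindex (fun _ => 2))).all 2)))).all 1
  refine h.congr (fun n v => ?_)
  simp [CorO, Vt.val]

/-- truth with quantifier blocks -/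
def TrO (O : Set (List ℝ)) : Bool → ℕ → ℕ → ℝ → Prop
  | _, 0, _, p => SatO O p
  | true, k + 1, i, p => ∃ p', Bq O 5 p p' i ∧ TrO O false k (i + 1) p'
  | false, k + 1, i, p => ∀ p', Bq O 5 p p' i → TrO O true k (i + 1) p'

theorem dfn_tr (O : Set (List ℝ)) (k : ℕ) : ∀ (b : Bool) (i : ℕ),
    Dfn O (fun _ v => TrO O b k i (v 0)) := by
  induction k with
  | zero =>
    intro b i
    cases b <;> exact dfn_sat O
  | succ k ih =>
    intro b i
    cases b with
    | true =>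
      have h := ((Dfn.B (O := O) (.num 5) (.var 0) (.var 1) (.num i)).and
        ((ih false (i + 1)).reindex (fun _ => 1))).ex 1
      refine h.congr (fun n v => ?_)
      simp [TrO, Vt.val]
    | false =>
      have h := ((Dfn.B (O := O) (.num 5) (.var 0) (.var 1) (.num i)).imp
        ((ih true (i + 1)).reindex (fun _ => 1))).all 1
      refine h.congr (fun n v => ?_)
      simp [TrO, Vt.val]

/-- the diagonal relation -/
def LamO (O : Set (List ℝ)) (k : ℕ) (n : List Bool) : Prop :=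
  ∃ p, (2 :: p :: bits n) ∈ O ∧ CorO O p ∧ ¬ TrO O true k 0 p

theorem dfn_lam (O : Set (List ℝ)) (k : ℕ) : Dfn O (fun n _ => LamO O k n) := by
  have h := ((Dfn.st (O := O) 0).and ((dfn_cor O).and (dfn_tr O k true 0).not)).ex 0
  refine h.congr (fun n v => ?_)
  simp [LamO]

/-! ### meaning -/

theorem bq_iff {T : Set Qf} {k x y z : ℝ} : Bq (orcl T) k x y z ↔ B k x y z := mkO_one

open Classical in
theorem sat_iff (T : Set Qf) (p : ℝ) :
    SatO (orcl T) p ↔ (D p).ψ.holds (orcl (D p).T) (D p).a := by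
  simp only [SatO, bq_iff]
  constructor
  · rintro ⟨p', h1, h2, h3⟩
    rw [B1] at h1
    obtain ⟨e1, e2, e3⟩ := h1
    rw [B0, e1, e2, e3] at h2
    refine (Qf.holds_congr (fun l hl => ?_)).1 h2
    refine mkO_congr (fun _ _ => Iff.rfl) (fun k x y z hkl => ?_)
    subst hkl
    obtain ⟨w, hw⟩ := Pr_surj (y, z)
    obtain ⟨v, hv⟩ := Pr_surj (x, w)
    obtain ⟨u, hu⟩ := Pr_surj (k, v)
    have hq : qu u = [1, k, x, y, z] := by
      unfold qu
      simp [hu, hv, hw]
    have h4 := h3 u v k w x y z (B2.2 hu) (B2.2 hv) (B2.2 hw)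
    rw [B3, B4, hq, e1, e2] at h4
    constructor
    · intro h
      exact h4.1 ⟨hl, h⟩
    · intro h
      by_contra h'
      exact h4.2 ⟨hl, h'⟩ h
  · intro h
    obtain ⟨p', hp'⟩ := D_surj ⟨(D p).ψ, (D p).a, (D p).T,
      ((D p).ψ.qs (D p).a).filter (fun l => l ∈ orcl (D p).T)⟩
    refine ⟨p', ?_, ?_, ?_⟩
    · rw [B1, hp']
      exact ⟨rfl, rfl, rfl⟩
    · rw [B0, hp']
      refine (Qf.holds_congr (fun l hl => ?_)).1 h
      refine mkO_congr (fun _ _ => Iff.rfl) (fun k x y z hkl => ?_)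
      subst hkl
      simp only [List.mem_filter, decide_eq_true_eq]
      rw [orcl, mkO_one]
      exact ⟨fun h => ⟨hl, h⟩, fun h => h.2⟩
    · intro u v k w x y z hu hv hw
      rw [B2] at hu hv hw
      have hq : qu u = [1, k, x, y, z] := by
        unfold qu
        simp [hu, hv, hw]
      rw [B3, B4, hq, hp']
      simp only [List.mem_filter, decide_eq_true_eq]
      rw [orcl, mkO_one]
      exact ⟨fun h => h.2.2, fun h h' => h.2 ⟨h.1, h'⟩⟩

theorem cor_iff (T : Set Qf) (p : ℝ) : CorO (orcl T) p ↔ (D p).T = TT := by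
  simp only [CorO, bq_iff, sat_iff]
  constructor
  · intro h
    refine TT_unique (fun ψ => ?_)
    obtain ⟨p', hp'⟩ := D_surj ⟨ψ, fun _ _ => 0, (D p).T, []⟩
    have h1 := h p' (by rw [B6, hp']) (by rw [B8, hp'])
    rw [B7, hp'] at h1
    simp only at h1
    rw [h1]
    simp only [PiTrue, truth]
    constructor
    · intro h2 v
      obtain ⟨p'', hp''⟩ := D_surj ⟨ψ, update (fun _ _ => 0) 0 v, (D p).T, []⟩
      have h3 := h2 p'' (by
        have : B 5 p' p'' ((0 : ℕ) : ℝ) := by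
          rw [B5, hp', hp'']
          exact ⟨rfl, rfl, v, rfl⟩
        simpa using this)
      rw [hp''] at h3
      exact h3
    · intro h2 p'' hp2
      have : B 5 p' p'' ((0 : ℕ) : ℝ) := by simpa using hp2
      rw [B5, hp'] at this
      obtain ⟨e1, e2, v, e3⟩ := this
      rw [e1, e2, e3]
      exact h2 v
  · intro h p' h1 h2
    rw [B6] at h1
    rw [B8] at h2
    rw [B7, h1, h, TT_spec]
    simp only [PiTrue, truth]
    constructor
    · intro h3 p'' hp2
      have : B 5 p' p'' ((0 : ℕ) : ℝ) := by simpa using hp2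
      rw [B5] at this
      obtain ⟨e1, e2, v, e3⟩ := this
      rw [e1, e2, e3, h1, h, h2]
      exact h3 v
    · intro h3 v
      obtain ⟨p'', hp''⟩ := D_surj ⟨(D p').ψ, update (fun _ _ => 0) 0 v, TT, []⟩
      have h4 := h3 p'' (by
        have : B 5 p' p'' ((0 : ℕ) : ℝ) := by
          rw [B5, hp'']
          exact ⟨rfl, by rw [h1, h], v, by rw [h2]⟩
        simpa using this)
      rw [hp''] at h4
      exact h4

theorem tr_iff (T : Set Qf) (k : ℕ) : ∀ (b : Bool) (i : ℕ) (p : ℝ),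
    TrO (orcl T) b k i p ↔ truth (orcl (D p).T) b k i (D p).ψ (D p).a := by
  induction k with
  | zero =>
    intro b i p
    cases b <;> exact sat_iff T p
  | succ k ih =>
    intro b i p
    cases b with
    | true =>
      simp only [TrO, truth, bq_iff, ih, B5]
      constructor
      · rintro ⟨p', ⟨e1, e2, v, e3⟩, h⟩
        rw [e1, e2, e3] at h
        exact ⟨v, h⟩
      · rintro ⟨v, h⟩
        obtain ⟨p', hp'⟩ := D_surj ⟨(D p).ψ, update (D p).a i v, (D p).T, []⟩
        refine ⟨p', ?_, ?_⟩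
        · rw [hp']
          exact ⟨rfl, rfl, v, rfl⟩
        · rw [hp']
          exact h
    | false =>
      simp only [TrO, truth, bq_iff, ih, B5]
      constructor
      · intro h v
        obtain ⟨p', hp'⟩ := D_surj ⟨(D p).ψ, update (D p).a i v, (D p).T, []⟩
        have := h p' (by
          rw [hp']
          exact ⟨rfl, rfl, v, rfl⟩)
        rw [hp'] at this
        exact this
      · rintro h p' ⟨e1, e2, v, e3⟩
        rw [e1, e2, e3]
        exact h v

theorem lam_iff (k : ℕ) (n : List Bool) :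
    LamO (orcl TT) k n ↔ ¬ SigmaTrue (orcl TT) k (F n) := by
  simp only [LamO, cor_iff, tr_iff, SigmaTrue]
  constructor
  · rintro ⟨p, h1, h2, h3⟩
    rw [orcl, mkO_two] at h1
    obtain ⟨e1, e2⟩ := h1
    rw [h2, e1, e2] at h3
    exact h3
  · intro h
    obtain ⟨p, hp⟩ := D_surj ⟨F n, fun _ _ => 0, TT, []⟩
    refine ⟨p, ?_, ?_, ?_⟩
    · rw [orcl, mkO_two]
      exact ⟨by rw [hp], by rw [hp]⟩
    · rw [hp]
    · rw [hp]
      exact h

theorem not_in_sigma (k : ℕ) : ¬ InSigma (orcl TT) k {n | LamO (orcl TT) k n} := by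
  rintro ⟨f, hf, h⟩
  obtain ⟨n, hn⟩ := en_spec hf
  obtain ⟨ψ, -, h1, h2⟩ := h n
  have h3 : F n = ψ := F_spec (by rw [hn, h1])
  have h4 : n ∈ {n | LamO (orcl TT) k n} ↔ LamO (orcl TT) k n := Iff.rfl
  rw [h4, lam_iff, h3] at h2
  tauto

/-- Relative to some oracle, `∀ℝ = ∃ℝ` and the real hierarchy does not collapse. -/
theorem main : ∃ O : Set (List ℝ), (∀ L, InPi O 1 L ↔ InSigma O 1 L) ∧
    ∀ k, ∃ j, 1 ≤ j ∧ ∃ L, InSigma O j L ∧ ¬ InSigma O k L := by
  refine ⟨orcl TT, pi_iff_sigma, fun k => ?_⟩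
  obtain ⟨j, hj1, hj⟩ := (dfn_lam (orcl TT) k).inSigma
  exact ⟨j, hj1, _, hj, not_in_sigma k⟩

end Pool.Agent.RH
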