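import Pool.Agent.Helper49.RH.Syntax

/-!
# First-order definable relations and the real hierarchy

Relations that are first-order definable over the oracle, with one kind of atom that depends on
the input string, give problems in some level of the real hierarchy relative to the oracle.
-/

namespace Pool.Agent.RH

open Function Pool.Agent.RelPoly

/-- a variable or a numeral -/
inductive Vt : Type
  | var (m : ℕ) : Vt
  | num (c : ℕ) : Vt

/-- quantifier-free formulas with a special atom that refers to the input string -/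
inductive Pf : Type
  | atm (l : List Vt) : Pf
  | st (m : ℕ) : Pf
  | neg (φ : Pf) : Pf
  | and (φ ψ : Pf) : Pf

/-- value of a `Vt` -/
def Vt.val (v : ℕ → ℝ) : Vt → ℝ
  | .var m => v m
  | .num c => c

/-- truth of a `Pf` -/
def Pf.holds (O : Set (List ℝ)) (n : List Bool) (v : ℕ → ℝ) : Pf → Prop
  | .atm l => l.map (Vt.val v) ∈ O
  | .st m => (2 :: v m :: bits n) ∈ O
  | .neg φ => ¬ φ.holds O n v
  | .and φ ψ => φ.holds O n v ∧ ψ.holds O n v

/-- numerals as terms -/
def numTm : ℕ → Tm
  | 0 => Tm.zero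
  | c + 1 => Tm.add (numTm c) Tm.one

theorem numTm_val (a : ℕ → ℕ → ℝ) (c : ℕ) : (numTm c).val a = c := by
  induction c with
  | zero => simp [numTm, Tm.val]
  | succ c ih => simp [numTm, Tm.val, ih]

/-- a `Vt` as a term, the variable `m` being replaced by the term `σ m` -/
def Vt.tm (σ : ℕ → Tm) : Vt → Tm
  | .var m => σ m
  | .num c => numTm c

/-- the formula for the input `n` -/
def Pf.inst (σ : ℕ → Tm) (n : List Bool) : Pf → Qf
  | .atm l => Qf.orc (l.map (Vt.tm σ))
  | .st m => Qf.orc (numTm 2 :: σ m :: bitsTm n)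
  | .neg φ => Qf.neg (φ.inst σ n)
  | .and φ ψ => Qf.and (φ.inst σ n) (ψ.inst σ n)

theorem numTm_closed (k c : ℕ) : (numTm c).Closed k := by
  induction c with
  | zero => trivial
  | succ c ih => exact ⟨ih, trivial⟩

theorem bitsTm_closed (k : ℕ) (s : List Bool) : ∀ t ∈ bitsTm s, t.Closed k := by
  intro t ht
  unfold bitsTm at ht
  rw [List.mem_map] at ht
  obtain ⟨b, -, rfl⟩ := ht
  cases b <;> simp [Tm.Closed]

theorem Pf.inst_closed {σ : ℕ → Tm} {n : List Bool} {k : ℕ} (h : ∀ m, (σ m).Closed k)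
    (ψ : Pf) : (ψ.inst σ n).Closed k := by
  induction ψ with
  | atm l =>
    simp only [Pf.inst, Qf.Closed, List.mem_map]
    rintro t ⟨u, -, rfl⟩
    cases u with
    | var m => exact h m
    | num c => exact numTm_closed k c
  | st m =>
    simp only [Pf.inst, Qf.Closed, List.mem_cons]
    rintro t (rfl | rfl | ht)
    · exact numTm_closed k 2
    · exact h m
    · exact bitsTm_closed k n t ht
  | neg φ ih => exact ih
  | and φ ψ ih1 ih2 => exact ⟨ih1, ih2⟩

theorem Pf.inst_holds {O : Set (List ℝ)} {σ : ℕ → Tm} {n : List Bool} {v : ℕ → ℝ}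
    {a : ℕ → ℕ → ℝ} (h : ∀ m, (σ m).val a = v m) (ψ : Pf) :
    (ψ.inst σ n).holds O a ↔ ψ.holds O n v := by
  induction ψ with
  | atm l =>
    simp only [Pf.inst, Qf.holds, Pf.holds, List.map_map]
    have : l.map (Tm.val a ∘ Vt.tm σ) = l.map (Vt.val v) := by
      apply List.map_congr_left
      intro t _
      cases t with
      | var m => simp [Vt.tm, Tm.val, Vt.val, h]
      | num c => simp [Vt.tm, Vt.val, numTm_val]
    rw [this]
  | st m =>
    simp only [Pf.inst, Qf.holds, Pf.holds, List.map_cons, bitsTm_val, numTm_val, Tm.val, h m,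
      Nat.cast_ofNat]
  | neg φ ih => simp only [Pf.inst, Qf.holds, Pf.holds, ih]
  | and φ ψ ih1 ih2 => simp only [Pf.inst, Qf.holds, Pf.holds, ih1, ih2]

/-- the code of `bitsTm` is computable in polynomial time -/
theorem pt_bitsCode : PT poly (fun s : List Bool => (bitsTm s).flatMap (fun t => true :: t.code)) := by
  have h : PT poly (fun s : List Bool => s.flatMap
      (fun b => if b = true then [true, false, true, true] else [true, false, true, false])) := by
    refine PT.flatMap (g := fun _ b => if b = true then [true, false, true, true]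
      else [true, false, true, false]) (by fun_prop) ?_
    exact PT.ite (by fun_prop) (PT.const _) (PT.const _)
  refine h.congr (fun s => ?_)
  unfold bitsTm
  rw [List.flatMap_map]
  apply List.flatMap_congr
  intro b _
  cases b <;> simp [Tm.code]

theorem pt_inst (σ : ℕ → Tm) (ψ : Pf) : PT poly (fun n => (ψ.inst σ n).code) := by
  induction ψ with
  | atm l => exact PT.const _
  | st m =>
    have h := pt_bitsCode
    have : PT poly (fun s : List Bool => ([false, true] ++ (true :: (numTm 2).code ++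
        (true :: (σ m).code))) ++
        ((bitsTm s).flatMap (fun t => true :: t.code) ++ [false])) := by
      exact PT.append (PT.const _) (PT.append h (PT.const _))
    refine this.congr (fun s => ?_)
    simp [Pf.inst, Qf.code]
  | neg φ ih =>
    refine (PT.append (PT.const [true, false]) ih).congr (fun s => ?_)
    simp [Pf.inst, Qf.code]
  | and φ ψ ih1 ih2 =>
    refine (PT.append (PT.const [true, true, false]) (PT.append ih1 ih2)).congr (fun s => ?_)
    simp [Pf.inst, Qf.code]

/-- renaming of variables -/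
def Pf.rename (ρ : ℕ → ℕ) : Pf → Pf
  | .atm l => .atm (l.map (fun t => match t with | .var m => .var (ρ m) | .num c => .num c))
  | .st m => .st (ρ m)
  | .neg φ => .neg (φ.rename ρ)
  | .and φ ψ => .and (φ.rename ρ) (ψ.rename ρ)

theorem Pf.rename_holds {O : Set (List ℝ)} {n : List Bool} {v : ℕ → ℝ} (ρ : ℕ → ℕ) (ψ : Pf) :
    (ψ.rename ρ).holds O n v ↔ ψ.holds O n (fun m => v (ρ m)) := by
  induction ψ with
  | atm l =>
    simp only [Pf.rename, Pf.holds, List.map_map]
    have : l.map (Vt.val v ∘ fun t => match t with | .var m => .var (ρ m) | .num c => .num c) =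
        l.map (Vt.val (fun m => v (ρ m))) := by
      apply List.map_congr_left
      intro t _
      cases t <;> simp [Vt.val]
    rw [this]
  | st m => simp only [Pf.rename, Pf.holds]
  | neg φ ih => simp only [Pf.rename, Pf.holds, ih]
  | and φ ψ ih1 ih2 => simp only [Pf.rename, Pf.holds, ih1, ih2]

/-- relations between a string and an assignment -/
abbrev Rl := List Bool → (ℕ → ℝ) → Prop

/-- interleaving -/
def mix (v w : ℕ → ℝ) : ℕ → ℝ := fun m => if m % 2 = 0 then v (m / 2) else w (m / 2)

theorem mix_even (v w : ℕ → ℝ) (m : ℕ) : mix v w (2 * m) = v m := by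
  unfold mix
  rw [if_pos (by omega)]
  congr 1
  omega

theorem mix_odd (v w : ℕ → ℝ) (m : ℕ) : mix v w (2 * m + 1) = w m := by
  unfold mix
  rw [if_neg (by omega)]
  congr 1
  omega

variable (O : Set (List ℝ))

/-- relations defined with `j` blocks of quantifiers -/
def Cl : Bool → ℕ → Rl → Prop
  | _, 0, R => ∃ ψ : Pf, ∀ n v, R n v ↔ ψ.holds O n v
  | true, j + 1, R => ∃ R', Cl false j R' ∧ ∀ n v, R n v ↔ ∃ w, R' n (mix v w)
  | false, j + 1, R => ∃ R', Cl true j R' ∧ ∀ n v, R n v ↔ ∀ w, R' n (mix v w)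

variable {O}

theorem Cl.congr {b : Bool} {j : ℕ} {R R' : Rl} (h : Cl O b j R) (h' : ∀ n v, R' n v ↔ R n v) :
    Cl O b j R' := by
  have : R' = R := by
    funext n v
    exact propext (h' n v)
  rwa [this]

theorem Cl.reindex {b : Bool} {j : ℕ} {R : Rl} (h : Cl O b j R) (ρ : ℕ → ℕ) :
    Cl O b j (fun n v => R n (fun m => v (ρ m))) := by
  induction j generalizing b R ρ with
  | zero =>
    cases b <;>
    · obtain ⟨ψ, hψ⟩ := h
      exact ⟨ψ.rename ρ, fun n v => by beta_reduce; rw [hψ, Pf.rename_holds]⟩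
  | succ j ih =>
    have key : ∀ (v w : ℕ → ℝ), mix (fun m => v (ρ m)) w =
        fun m => mix v w (if m % 2 = 0 then 2 * ρ (m / 2) else m) := by
      intro v w
      funext m
      by_cases hm : m % 2 = 0
      · rw [if_pos hm, mix_even]
        unfold mix
        rw [if_pos hm]
      · rw [if_neg hm]
        unfold mix
        rw [if_neg hm, if_neg hm]
    cases b with
    | true =>
      obtain ⟨R', h1, h2⟩ := h
      refine ⟨_, ih h1 (fun m => if m % 2 = 0 then 2 * ρ (m / 2) else m), fun n v => ?_⟩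
      beta_reduce
      rw [h2]
      exact exists_congr (fun w => by rw [key])
    | false =>
      obtain ⟨R', h1, h2⟩ := h
      refine ⟨_, ih h1 (fun m => if m % 2 = 0 then 2 * ρ (m / 2) else m), fun n v => ?_⟩
      beta_reduce
      rw [h2]
      exact forall_congr' (fun w => by rw [key])

theorem Cl.compl {b : Bool} {j : ℕ} {R : Rl} (h : Cl O b j R) :
    Cl O (!b) j (fun n v => ¬ R n v) := by
  induction j generalizing b R with
  | zero =>
    cases b <;>
    · obtain ⟨ψ, hψ⟩ := h
      exact ⟨ψ.neg, fun n v => by beta_reduce; rw [hψ]; rfl⟩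
  | succ j ih =>
    cases b with
    | true =>
      obtain ⟨R', h1, h2⟩ := h
      exact ⟨_, ih h1, fun n v => by beta_reduce; rw [h2, not_exists]⟩
    | false =>
      obtain ⟨R', h1, h2⟩ := h
      exact ⟨_, ih h1, fun n v => by beta_reduce; rw [h2, not_forall]⟩

theorem Cl.conj {b : Bool} {j : ℕ} {R S : Rl} (h : Cl O b j R) (h' : Cl O b j S) :
    Cl O b j (fun n v => R n v ∧ S n v) := by
  induction j generalizing b R S with
  | zero =>
    cases b <;>
    · obtain ⟨ψ, hψ⟩ := h
      obtain ⟨χ, hχ⟩ := h'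
      exact ⟨ψ.and χ, fun n v => by beta_reduce; rw [hψ, hχ]; rfl⟩
  | succ j ih =>
    -- first uses `w (2 m)`, second uses `w (2 m + 1)`
    have key1 : ∀ (v w : ℕ → ℝ), (fun m => mix v w (if m % 2 = 0 then m else 2 * (2 * (m / 2)) + 1)) =
        mix v (fun m => w (2 * m)) := by
      intro v w
      funext m
      by_cases hm : m % 2 = 0
      · rw [if_pos hm]
        unfold mix
        rw [if_pos hm, if_pos hm]
      · rw [if_neg hm, mix_odd]
        unfold mix
        rw [if_neg hm]
    have key2 : ∀ (v w : ℕ → ℝ), (fun m => mix v w (if m % 2 = 0 then m else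
        2 * (2 * (m / 2) + 1) + 1)) = mix v (fun m => w (2 * m + 1)) := by
      intro v w
      funext m
      by_cases hm : m % 2 = 0
      · rw [if_pos hm]
        unfold mix
        rw [if_pos hm, if_pos hm]
      · rw [if_neg hm, mix_odd]
        unfold mix
        rw [if_neg hm]
    have e1 : ∀ w1 w2 : ℕ → ℝ, (fun m => mix w1 w2 (2 * m)) = w1 := fun w1 w2 =>
      funext (fun m => mix_even w1 w2 m)
    have e2 : ∀ w1 w2 : ℕ → ℝ, (fun m => mix w1 w2 (2 * m + 1)) = w2 := fun w1 w2 =>
      funext (fun m => mix_odd w1 w2 m)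
    cases b with
    | true =>
      obtain ⟨R', h1, h2⟩ := h
      obtain ⟨S', g1, g2⟩ := h'
      refine ⟨_, ih (h1.reindex (fun m => if m % 2 = 0 then m else 2 * (2 * (m / 2)) + 1))
        (g1.reindex (fun m => if m % 2 = 0 then m else 2 * (2 * (m / 2) + 1) + 1)), fun n v => ?_⟩
      beta_reduce
      rw [h2, g2]
      constructor
      · rintro ⟨⟨w1, hw1⟩, ⟨w2, hw2⟩⟩
        refine ⟨mix w1 w2, ?_, ?_⟩
        · rw [key1, e1]; exact hw1
        · rw [key2, e2]; exact hw2
      · rintro ⟨w, hw1, hw2⟩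
        rw [key1] at hw1
        rw [key2] at hw2
        exact ⟨⟨_, hw1⟩, ⟨_, hw2⟩⟩
    | false =>
      obtain ⟨R', h1, h2⟩ := h
      obtain ⟨S', g1, g2⟩ := h'
      refine ⟨_, ih (h1.reindex (fun m => if m % 2 = 0 then m else 2 * (2 * (m / 2)) + 1))
        (g1.reindex (fun m => if m % 2 = 0 then m else 2 * (2 * (m / 2) + 1) + 1)), fun n v => ?_⟩
      beta_reduce
      rw [h2, g2]
      constructor
      · rintro ⟨hw1, hw2⟩ w
        refine ⟨?_, ?_⟩
        · rw [key1]; exact hw1 _
        · rw [key2]; exact hw2 _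
      · intro hw
        refine ⟨fun w1 => ?_, fun w2 => ?_⟩
        · have := (hw (mix w1 w1)).1
          rwa [key1, e1] at this
        · have := (hw (mix w2 w2)).2
          rwa [key2, e2] at this

theorem Cl.raise {b : Bool} {j : ℕ} {R : Rl} (h : Cl O b j R) (b' : Bool) : Cl O b' (j + 1) R := by
  have dummy : ∀ {b : Bool} {j : ℕ} {R : Rl}, Cl O b j R → Cl O (!b) (j + 1) R := by
    intro b j R h
    have h1 := h.reindex (fun m => 2 * m)
    cases b with
    | true =>
      refine ⟨_, h1, fun n v => ?_⟩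
      simp only [mix_even]
      exact ⟨fun h _ => h, fun h => h (fun _ => 0)⟩
    | false =>
      refine ⟨_, h1, fun n v => ?_⟩
      simp only [mix_even]
      exact ⟨fun h => ⟨fun _ => 0, h⟩, fun ⟨_, h⟩ => h⟩
  have same : ∀ {j : ℕ} {b : Bool} {R : Rl}, Cl O b j R → Cl O b (j + 1) R := by
    intro j
    induction j with
    | zero =>
      intro b R h
      have h0 : Cl O (!b) 0 R := by cases b <;> exact h
      have := dummy h0
      rwa [Bool.not_not] at this
    | succ j ih =>
      intro b R h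
      cases b with
      | true =>
        obtain ⟨R', h1, h2⟩ := h
        exact ⟨R', ih h1, h2⟩
      | false =>
        obtain ⟨R', h1, h2⟩ := h
        exact ⟨R', ih h1, h2⟩
  by_cases hb : b' = b
  · rw [hb]; exact same h
  · have : b' = !b := by cases b <;> cases b' <;> simp_all
    rw [this]; exact dummy h

theorem Cl.raise_le {b : Bool} {j : ℕ} {R : Rl} (h : Cl O b j R) {j' : ℕ} (hj : j < j')
    (b' : Bool) : Cl O b' j' R := by
  induction j' with
  | zero => omega
  | succ j' ih =>
    by_cases hj' : j = j'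
    · subst hj'; exact h.raise b'
    · exact (ih (by omega)).raise b'

variable (O)

/-- first-order definable relations -/
def Dfn (R : Rl) : Prop := ∃ b j, Cl O b j R

variable {O}

theorem Dfn.cl {R : Rl} (h : Dfn O R) : ∃ j, ∀ j', j ≤ j' → ∀ b, Cl O b j' R := by
  obtain ⟨b, j, h⟩ := h
  exact ⟨j + 1, fun j' hj' b' => h.raise_le (by omega) b'⟩

theorem Dfn.congr {R R' : Rl} (h : Dfn O R) (h' : ∀ n v, R' n v ↔ R n v) : Dfn O R' := by
  obtain ⟨b, j, h⟩ := h
  exact ⟨b, j, h.congr h'⟩

theorem Dfn.at (l : List Vt) : Dfn O (fun _ v => l.map (Vt.val v) ∈ O) :=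
  ⟨true, 0, Pf.atm l, fun _ _ => Iff.rfl⟩

theorem Dfn.st (m : ℕ) : Dfn O (fun n v => (2 :: v m :: bits n) ∈ O) :=
  ⟨true, 0, Pf.st m, fun _ _ => Iff.rfl⟩

theorem Dfn.not {R : Rl} (h : Dfn O R) : Dfn O (fun n v => ¬ R n v) := by
  obtain ⟨b, j, h⟩ := h
  exact ⟨!b, j, h.compl⟩

theorem Dfn.and {R S : Rl} (h : Dfn O R) (h' : Dfn O S) : Dfn O (fun n v => R n v ∧ S n v) := by
  obtain ⟨j, h⟩ := h.cl
  obtain ⟨j', h'⟩ := h'.cl
  exact ⟨true, max j j', (h _ (le_max_left _ _) true).conj (h' _ (le_max_right _ _) true)⟩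

theorem Dfn.imp {R S : Rl} (h : Dfn O R) (h' : Dfn O S) : Dfn O (fun n v => R n v → S n v) := by
  refine (h.and h'.not).not.congr (fun n v => ?_)
  tauto

theorem Dfn.iff {R S : Rl} (h : Dfn O R) (h' : Dfn O S) : Dfn O (fun n v => (R n v ↔ S n v)) := by
  refine ((h.imp h').and (h'.imp h)).congr (fun n v => ?_)
  tauto

theorem Dfn.ex {R : Rl} (h : Dfn O R) (i : ℕ) :
    Dfn O (fun n v => ∃ x : ℝ, R n (update v i x)) := by
  obtain ⟨j, h⟩ := h.cl
  have h1 := (h j le_rfl false).reindex (fun m => if m = i then 1 else 2 * m)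
  refine ⟨true, j + 1, _, h1, fun n v => ?_⟩
  have key : ∀ w : ℕ → ℝ, (fun m => mix v w (if m = i then 1 else 2 * m)) = update v i (w 0) := by
    intro w
    funext m
    by_cases hm : m = i
    · subst hm
      rw [if_pos rfl, update_self]
      exact mix_odd v w 0
    · rw [if_neg hm, update_of_ne hm, mix_even]
  simp only [key]
  constructor
  · rintro ⟨x, hx⟩
    exact ⟨fun _ => x, hx⟩
  · rintro ⟨w, hw⟩
    exact ⟨w 0, hw⟩

theorem Dfn.all {R : Rl} (h : Dfn O R) (i : ℕ) :
    Dfn O (fun n v => ∀ x : ℝ, R n (update v i x)) := by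
  refine (h.not.ex i).not.congr (fun n v => ?_)
  simp only [not_exists, not_not]

theorem Cl.toTruth {j : ℕ} : ∀ {b : Bool} {R : Rl}, Cl O b j R → ∀ (i : ℕ) (σ : ℕ → Tm),
    (∀ m, σ m = Tm.zero ∨ ∃ i' < i, ∃ j', σ m = Tm.var i' j') → ∃ (ψ : Pf) (σ' : ℕ → Tm),
      (∀ m, (σ' m).Closed (i + j)) ∧ ∀ n a v,
      (∀ m, (σ m).val a = v m) → (R n v ↔ truth O b j i (ψ.inst σ' n) a) := by
  induction j with
  | zero =>
    intro b R h i σ hσ
    have hc : ∀ m, (σ m).Closed (i + 0) := by
      intro m
      rcases hσ m with h | ⟨i', hi', j', h⟩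
      · rw [h]; trivial
      · rw [h]; exact hi'
    cases b <;>
    · obtain ⟨ψ, hψ⟩ := h
      refine ⟨ψ, σ, hc, fun n a v hv => ?_⟩
      rw [hψ]
      exact (Pf.inst_holds hv ψ).symm
  | succ j ih =>
    intro b R h i σ hσ
    let σ'' : ℕ → Tm := fun m => if m % 2 = 0 then σ (m / 2) else Tm.var i (m / 2)
    have hσ'' : ∀ m, σ'' m = Tm.zero ∨ ∃ i' < i + 1, ∃ j', σ'' m = Tm.var i' j' := by
      intro m
      simp only [σ'']
      split_ifs
      · rcases hσ (m / 2) with h | ⟨i', hi', j', h⟩
        · left; exact h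
        · right; exact ⟨i', by omega, j', h⟩
      · right
        exact ⟨i, by omega, m / 2, rfl⟩
    have hmix : ∀ (a : ℕ → ℕ → ℝ) (v w : ℕ → ℝ), (∀ m, (σ m).val a = v m) →
        ∀ m, (σ'' m).val (update a i w) = mix v w m := by
      intro a v w hv m
      unfold mix
      simp only [σ'']
      split_ifs with hm
      · rcases hσ (m / 2) with h | ⟨i', hi', j', h⟩
        · rw [← hv, h]; rfl
        · have hi : i' ≠ i := by omega
          rw [← hv, h]
          simp only [Tm.val]
          rw [update_of_ne hi]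
      · simp [Tm.val]
    cases b with
    | true =>
      obtain ⟨R', h1, h2⟩ := h
      obtain ⟨ψ, σ', hc, hψ⟩ := ih h1 (i + 1) σ'' hσ''
      refine ⟨ψ, σ', fun m => ?_, fun n a v hv => ?_⟩
      · have := hc m
        rwa [show i + 1 + j = i + (j + 1) by omega] at this
      · rw [h2]
        exact exists_congr (fun w => hψ n (update a i w) (mix v w) (hmix a v w hv))
    | false =>
      obtain ⟨R', h1, h2⟩ := h
      obtain ⟨ψ, σ', hc, hψ⟩ := ih h1 (i + 1) σ'' hσ''
      refine ⟨ψ, σ', fun m => ?_, fun n a v hv => ?_⟩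
      · have := hc m
        rwa [show i + 1 + j = i + (j + 1) by omega] at this
      · rw [h2]
        exact forall_congr' (fun w => hψ n (update a i w) (mix v w) (hmix a v w hv))

/-- a definable relation gives a problem in the real hierarchy -/
theorem Dfn.inSigma {R : Rl} (h : Dfn O R) :
    ∃ j, 1 ≤ j ∧ InSigma O j {n | R n (fun _ => 0)} := by
  obtain ⟨j, h⟩ := h.cl
  obtain ⟨ψ, σ', hc, hψ⟩ := (h (max j 1) (le_max_left _ _) true).toTruth 0 (fun _ => Tm.zero)
    (fun m => Or.inl rfl)
  refine ⟨max j 1, le_max_right _ _, fun n => (ψ.inst σ' n).code, PT_poly_iff.1 (pt_inst σ' ψ),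
    fun n => ⟨ψ.inst σ' n, Pf.inst_closed (fun m => by simpa using hc m) ψ, rfl, ?_⟩⟩
  exact hψ n (fun _ _ => 0) (fun _ => 0) (fun _ => rfl)

end Pool.Agent.RH
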