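import Pool.Agent.RelPoly.Strings
import Mathlib.Data.Real.Basic
import Mathlib.Tactic.DeriveCountable

/-!
# The real hierarchy relative to an oracle

Quantifier-free real formulas with oracle atoms, prenex sentences, and the classes `Σ_k ℝ` and
`Π_k ℝ` relative to an oracle, which is a set of finite sequences of real numbers.
-/

namespace Pool.Agent.RH

open Function

/-- Terms over the real numbers; `var i j` is the variable number `j` of the block number `i`. -/
inductive Tm : Type
  | var (i j : ℕ) : Tm
  | zero : Tm
  | one : Tm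
  | add (s t : Tm) : Tm
  | sub (s t : Tm) : Tm
  | mul (s t : Tm) : Tm
  deriving Countable

/-- Quantifier-free formulas; `orc l` says that the sequence of the values of the terms in `l`
belongs to the oracle. -/
inductive Qf : Type
  | eq (s t : Tm) : Qf
  | lt (s t : Tm) : Qf
  | le (s t : Tm) : Qf
  | orc (l : List Tm) : Qf
  | neg (φ : Qf) : Qf
  | and (φ ψ : Qf) : Qf
  | or (φ ψ : Qf) : Qf
  deriving Countable

/-- The value of a term; `a i j` is the value of the variable `var i j`. -/
def Tm.val (a : ℕ → ℕ → ℝ) : Tm → ℝ
  | .var i j => a i j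
  | .zero => 0
  | .one => 1
  | .add s t => s.val a + t.val a
  | .sub s t => s.val a - t.val a
  | .mul s t => s.val a * t.val a

/-- Truth of a quantifier-free formula relative to the oracle `O`. -/
def Qf.holds (O : Set (List ℝ)) (a : ℕ → ℕ → ℝ) : Qf → Prop
  | .eq s t => s.val a = t.val a
  | .lt s t => s.val a < t.val a
  | .le s t => s.val a ≤ t.val a
  | .orc l => l.map (Tm.val a) ∈ O
  | .neg φ => ¬ φ.holds O a
  | .and φ ψ => φ.holds O a ∧ ψ.holds O a
  | .or φ ψ => φ.holds O a ∨ ψ.holds O a

/-- Truth of the prenex formula with `k` alternating quantifier blocks, over the variables of the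
blocks `i, i + 1, …, i + k - 1`, and the matrix `ψ`; the first block is existential if the first
argument is `true` and universal otherwise.  The other variables are given by `a`. -/
def truth (O : Set (List ℝ)) : Bool → ℕ → ℕ → Qf → (ℕ → ℕ → ℝ) → Prop
  | _, 0, _, ψ, a => ψ.holds O a
  | true, k + 1, i, ψ, a => ∃ v : ℕ → ℝ, truth O false k (i + 1) ψ (update a i v)
  | false, k + 1, i, ψ, a => ∀ v : ℕ → ℝ, truth O true k (i + 1) ψ (update a i v)

/-- The sentence `∃ X₀ ∀ X₁ ⋯ ψ` with `k` blocks is true. -/
def SigmaTrue (O : Set (List ℝ)) (k : ℕ) (ψ : Qf) : Prop := truth O true k 0 ψ (fun _ _ => 0)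

/-- The sentence `∀ X₀ ∃ X₁ ⋯ ψ` with `k` blocks is true. -/
def PiTrue (O : Set (List ℝ)) (k : ℕ) (ψ : Qf) : Prop := truth O false k 0 ψ (fun _ _ => 0)

/-- The number `i` in unary. -/
def unary (i : ℕ) : List Bool := List.replicate i true ++ [false]

/-- The encoding of a term as a binary string. -/
def Tm.code : Tm → List Bool
  | .var i j => [false, false] ++ (unary i ++ unary j)
  | .zero => [false, true, false]
  | .one => [false, true, true]
  | .add s t => [true, false, false] ++ (s.code ++ t.code)
  | .sub s t => [true, false, true] ++ (s.code ++ t.code)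
  | .mul s t => [true, true] ++ (s.code ++ t.code)

/-- The encoding of a formula as a binary string. -/
def Qf.code : Qf → List Bool
  | .eq s t => [false, false, false] ++ (s.code ++ t.code)
  | .lt s t => [false, false, true, false] ++ (s.code ++ t.code)
  | .le s t => [false, false, true, true] ++ (s.code ++ t.code)
  | .orc l => [false, true] ++ (l.flatMap (fun t => true :: t.code) ++ [false])
  | .neg φ => [true, false] ++ φ.code
  | .and φ ψ => [true, true, false] ++ (φ.code ++ ψ.code)
  | .or φ ψ => [true, true, true] ++ (φ.code ++ ψ.code)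

/-- All variables of the term belong to the blocks `0, …, k - 1`. -/
def Tm.Closed (k : ℕ) : Tm → Prop
  | .var i _ => i < k
  | .zero => True
  | .one => True
  | .add s t => s.Closed k ∧ t.Closed k
  | .sub s t => s.Closed k ∧ t.Closed k
  | .mul s t => s.Closed k ∧ t.Closed k

/-- All variables of the formula belong to the blocks `0, …, k - 1`. -/
def Qf.Closed (k : ℕ) : Qf → Prop
  | .eq s t => s.Closed k ∧ t.Closed k
  | .lt s t => s.Closed k ∧ t.Closed k
  | .le s t => s.Closed k ∧ t.Closed k
  | .orc l => ∀ t ∈ l, t.Closed k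
  | .neg φ => φ.Closed k
  | .and φ ψ => φ.Closed k ∧ ψ.Closed k
  | .or φ ψ => φ.Closed k ∧ ψ.Closed k

/-- `L` is in `Σ_k ℝ` relative to `O`: it is polynomial-time many-one reducible to the truth of
sentences `∃ X₀ ∀ X₁ ⋯ ψ` with `k` blocks. -/
def InSigma (O : Set (List ℝ)) (k : ℕ) (L : Set (List Bool)) : Prop :=
  ∃ f : List Bool → List Bool, Pool.Agent.PolyTime.PolyTime f ∧
    ∀ x, ∃ ψ : Qf, ψ.Closed k ∧ f x = ψ.code ∧ (x ∈ L ↔ SigmaTrue O k ψ)

/-- `L` is in `Π_k ℝ` relative to `O`. -/
def InPi (O : Set (List ℝ)) (k : ℕ) (L : Set (List Bool)) : Prop :=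
  ∃ f : List Bool → List Bool, Pool.Agent.PolyTime.PolyTime f ∧
    ∀ x, ∃ ψ : Qf, ψ.Closed k ∧ f x = ψ.code ∧ (x ∈ L ↔ PiTrue O k ψ)

/-! ### unique readability -/

theorem unary_inj {i i' : ℕ} {r r' : List Bool} (h : unary i ++ r = unary i' ++ r') :
    i = i' ∧ r = r' := by
  induction i generalizing i' with
  | zero =>
    cases i' with
    | zero => simpa [unary] using h
    | succ i' => simp [unary, List.replicate_succ] at h
  | succ i ih =>
    cases i' with
    | zero => simp [unary, List.replicate_succ] at h
    | succ i' =>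
      simp only [unary, List.replicate_succ, List.cons_append, List.cons.injEq, true_and] at h
      obtain ⟨h1, h2⟩ := ih (i' := i') (by simpa [unary] using h)
      exact ⟨by omega, h2⟩

theorem Tm.code_inj : ∀ {s s' : Tm} {r r' : List Bool}, s.code ++ r = s'.code ++ r' →
    s = s' ∧ r = r' := by
  intro s
  induction s with
  | var i j =>
    intro s' r r' h
    cases s' with
    | var i' j' =>
      simp only [Tm.code, List.append_assoc, List.append_cancel_left_eq] at h
      obtain ⟨rfl, h1⟩ := unary_inj h
      obtain ⟨rfl, h2⟩ := unary_inj h1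
      exact ⟨rfl, h2⟩
    | _ => simp [Tm.code] at h
  | zero =>
    intro s' r r' h
    cases s' with
    | zero => simpa [Tm.code] using h
    | _ => simp [Tm.code] at h
  | one =>
    intro s' r r' h
    cases s' with
    | one => simpa [Tm.code] using h
    | _ => simp [Tm.code] at h
  | add s t ihs iht =>
    intro s' r r' h
    cases s' with
    | add s' t' =>
      simp only [Tm.code, List.append_assoc, List.append_cancel_left_eq] at h
      obtain ⟨rfl, h1⟩ := ihs h
      obtain ⟨rfl, h2⟩ := iht h1
      exact ⟨rfl, h2⟩
    | _ => simp [Tm.code] at h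
  | sub s t ihs iht =>
    intro s' r r' h
    cases s' with
    | sub s' t' =>
      simp only [Tm.code, List.append_assoc, List.append_cancel_left_eq] at h
      obtain ⟨rfl, h1⟩ := ihs h
      obtain ⟨rfl, h2⟩ := iht h1
      exact ⟨rfl, h2⟩
    | _ => simp [Tm.code] at h
  | mul s t ihs iht =>
    intro s' r r' h
    cases s' with
    | mul s' t' =>
      simp only [Tm.code, List.append_assoc, List.append_cancel_left_eq] at h
      obtain ⟨rfl, h1⟩ := ihs h
      obtain ⟨rfl, h2⟩ := iht h1
      exact ⟨rfl, h2⟩
    | _ => simp [Tm.code] at h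

theorem list_code_inj : ∀ {l l' : List Tm} {r r' : List Bool},
    l.flatMap (fun t => true :: t.code) ++ ([false] ++ r) =
      l'.flatMap (fun t => true :: t.code) ++ ([false] ++ r') → l = l' ∧ r = r' := by
  intro l
  induction l with
  | nil =>
    intro l' r r' h
    cases l' with
    | nil => simpa using h
    | cons t l' => simp at h
  | cons t l ih =>
    intro l' r r' h
    cases l' with
    | nil => simp at h
    | cons t' l' =>
      simp only [List.flatMap_cons, List.cons_append, List.append_assoc, List.cons.injEq,
        true_and] at h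
      obtain ⟨rfl, h1⟩ := Tm.code_inj h
      obtain ⟨rfl, h2⟩ := ih (by simpa using h1)
      exact ⟨rfl, h2⟩

theorem Qf.code_inj' : ∀ {φ φ' : Qf} {r r' : List Bool}, φ.code ++ r = φ'.code ++ r' →
    φ = φ' ∧ r = r' := by
  intro φ
  induction φ with
  | eq s t =>
    intro s' r r' h
    cases s' with
    | eq s' t' =>
      simp only [Qf.code, List.append_assoc, List.append_cancel_left_eq] at h
      obtain ⟨rfl, h1⟩ := Tm.code_inj h
      obtain ⟨rfl, h2⟩ := Tm.code_inj h1
      exact ⟨rfl, h2⟩
    | _ => simp [Qf.code] at h
  | lt s t =>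
    intro s' r r' h
    cases s' with
    | lt s' t' =>
      simp only [Qf.code, List.append_assoc, List.append_cancel_left_eq] at h
      obtain ⟨rfl, h1⟩ := Tm.code_inj h
      obtain ⟨rfl, h2⟩ := Tm.code_inj h1
      exact ⟨rfl, h2⟩
    | _ => simp [Qf.code] at h
  | le s t =>
    intro s' r r' h
    cases s' with
    | le s' t' =>
      simp only [Qf.code, List.append_assoc, List.append_cancel_left_eq] at h
      obtain ⟨rfl, h1⟩ := Tm.code_inj h
      obtain ⟨rfl, h2⟩ := Tm.code_inj h1
      exact ⟨rfl, h2⟩
    | _ => simp [Qf.code] at h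
  | orc l =>
    intro s' r r' h
    cases s' with
    | orc l' =>
      simp only [Qf.code, List.append_assoc, List.append_cancel_left_eq] at h
      obtain ⟨rfl, h1⟩ := list_code_inj h
      exact ⟨rfl, h1⟩
    | _ => simp [Qf.code] at h
  | neg φ ih =>
    intro s' r r' h
    cases s' with
    | neg s' =>
      simp only [Qf.code, List.append_assoc, List.append_cancel_left_eq] at h
      obtain ⟨rfl, h1⟩ := ih h
      exact ⟨rfl, h1⟩
    | _ => simp [Qf.code] at h
  | and s t ihs iht =>
    intro s' r r' h
    cases s' with
    | and s' t' =>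
      simp only [Qf.code, List.append_assoc, List.append_cancel_left_eq] at h
      obtain ⟨rfl, h1⟩ := ihs h
      obtain ⟨rfl, h2⟩ := iht h1
      exact ⟨rfl, h2⟩
    | _ => simp [Qf.code] at h
  | or s t ihs iht =>
    intro s' r r' h
    cases s' with
    | or s' t' =>
      simp only [Qf.code, List.append_assoc, List.append_cancel_left_eq] at h
      obtain ⟨rfl, h1⟩ := ihs h
      obtain ⟨rfl, h2⟩ := iht h1
      exact ⟨rfl, h2⟩
    | _ => simp [Qf.code] at h

theorem Qf.code_injective : Injective Qf.code := by
  intro φ φ' h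
  exact (Qf.code_inj' (r := []) (r' := []) (by simpa using h)).1

/-- The list of reals `0` and `1` that corresponds to a string. -/
def bits (s : List Bool) : List ℝ := s.map (fun b => if b then 1 else 0)

/-- The corresponding list of terms. -/
def bitsTm (s : List Bool) : List Tm := s.map (fun b => if b then Tm.one else Tm.zero)

theorem bitsTm_val (s : List Bool) (a : ℕ → ℕ → ℝ) : (bitsTm s).map (Tm.val a) = bits s := by
  unfold bitsTm bits
  rw [List.map_map]
  apply List.map_congr_left
  intro b _
  cases b <;> simp [Tm.val]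

theorem bits_injective : Injective bits := by
  intro s s' h
  unfold bits at h
  refine List.map_injective_iff.2 ?_ h
  intro b b' hb
  cases b <;> cases b' <;> simp_all

end Pool.Agent.RH
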